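import Mathlib

/-!
# Equivariant cell complexes and Tate groups of cyclic groups
-/

set_option autoImplicit false

namespace Pool.Agent.W2helper44.OT

open Module

/-! ### Tate groups of a cyclic group -/

section tate

variable {M : Type} [AddCommGroup M]

/-- The endomorphism `h - 1` if `s` is even, and the norm `1 + h + ⋯ + h ^ (m - 1)` if `s` is
odd. -/
noncomputable def op (h : M →ₗ[ℤ] M) (m s : ℕ) : M →ₗ[ℤ] M :=
  open Classical in
  if Even s then h - 1 else ∑ j ∈ Finset.range m, (h ^ j : Module.End ℤ M)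

variable (M) in
/-- The Tate group of the cyclic group of order `m` acting on `M` through `h`: it is
`ker (h - 1) / im (1 + h + ⋯ + h ^ (m - 1))` if `s` is even, and
`ker (1 + h + ⋯ + h ^ (m - 1)) / im (h - 1)` if `s` is odd. -/
abbrev Tate (h : M →ₗ[ℤ] M) (m s : ℕ) : Type :=
  LinearMap.ker (op h m s) ⧸
    (LinearMap.range (op h m (s + 1))).submoduleOf (LinearMap.ker (op h m s))

/-- The order of `T / p ^ k T`. -/
noncomputable def cc (p k : ℕ) (T : Type) [AddCommGroup T] : ℕ :=
  Nat.card (T ⧸ LinearMap.range (((p : ℤ) ^ k) • (LinearMap.id : T →ₗ[ℤ] T)))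

end tate

/-! ### Complexes with an automorphism -/

/-- A bounded complex of abelian groups with an endomorphism `h`. -/
structure Cx where
  /-- the groups -/
  X : ℕ → Type
  /-- they are abelian groups -/
  grp : ∀ q, AddCommGroup (X q)
  /-- the boundary -/
  d : ∀ q, X (q + 1) →ₗ[ℤ] X q
  /-- the endomorphism -/
  h : ∀ q, X q →ₗ[ℤ] X q
  d_d : ∀ q (x : X (q + 1 + 1)), d q (d (q + 1) x) = 0
  d_h : ∀ q (x : X (q + 1)), d q (h (q + 1) x) = h q (d q x)
  /-- the groups vanish in the degrees larger than `dim` -/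
  dim : ℕ
  bdd : ∀ q, dim < q → ∀ x : X q, x = 0

attribute [instance] Cx.grp

namespace Cx

variable (A : Cx)

/-- The cycles. -/
def Z : ∀ q, Submodule ℤ (A.X q)
  | 0 => ⊤
  | q + 1 => LinearMap.ker (A.d q)

/-- The boundaries. -/
def B (q : ℕ) : Submodule ℤ (A.X q) := LinearMap.range (A.d q)

/-- The homology. -/
abbrev H (q : ℕ) : Type := A.Z q ⧸ (A.B q).submoduleOf (A.Z q)

lemma h_mem_Z (q : ℕ) (x : A.X q) (hx : x ∈ A.Z q) : A.h q x ∈ A.Z q := by
  cases q with
  | zero => trivial
  | succ q =>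
    simp only [Z, LinearMap.mem_ker] at hx ⊢
    rw [A.d_h, hx, map_zero]

lemma h_mem_B (q : ℕ) (x : A.X q) (hx : x ∈ A.B q) : A.h q x ∈ A.B q := by
  obtain ⟨y, rfl⟩ := hx
  exact ⟨A.h (q + 1) y, A.d_h q y⟩

lemma B_le_Z (q : ℕ) : A.B q ≤ A.Z q := by
  rintro _ ⟨y, rfl⟩
  cases q with
  | zero => trivial
  | succ q => exact A.d_d q y

/-- The endomorphism induced by `h` on the cycles. -/
def hZ (q : ℕ) : A.Z q →ₗ[ℤ] A.Z q := (A.h q).restrict (A.h_mem_Z q)

/-- The endomorphism induced by `h` on the homology. -/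
def hH (q : ℕ) : A.H q →ₗ[ℤ] A.H q :=
  Submodule.mapQ _ _ (A.hZ q) fun x hx => A.h_mem_B q x hx

/-- The differential of the total complex for the Tate cohomology of the cyclic group of
order `m`. -/
noncomputable def D (m s : ℕ) : (∀ q, A.X q) →ₗ[ℤ] (∀ q, A.X q) :=
  LinearMap.pi fun q => (A.d q) ∘ₗ (LinearMap.proj (q + 1)) +
    ((-1 : ℤ) ^ q) • ((op (A.h q) m (s + q)) ∘ₗ (LinearMap.proj q))

/-- The Tate hypercohomology. -/
abbrev G (m s : ℕ) : Type :=
  LinearMap.ker (A.D m s) ⧸ (LinearMap.range (A.D m (s + 1))).submoduleOf (LinearMap.ker (A.D m s))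

end Cx

/-! ### Cell complexes with a cellular rotation -/

/-- The automorphism of the functions on `E` given by a permutation `ρ` of `E`: it maps the
characteristic function of `σ` to the one of `ρ σ`. -/
def sh {E : Type} (ρ : Equiv.Perm E) : (E → ℤ) →ₗ[ℤ] (E → ℤ) := LinearMap.funLeft ℤ ℤ ρ.symm

/-- The functions supported on the points fixed by `ρ ^ m`. -/
def supp {E : Type} (ρ : Equiv.Perm E) (m : ℕ) : Submodule ℤ (E → ℤ) where
  carrier := {x | ∀ σ, (ρ ^ m) σ ≠ σ → x σ = 0}
  zero_mem' := fun _ _ => rfl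
  add_mem' := fun {x y} hx hy σ h => by simp [hx σ h, hy σ h]
  smul_mem' := fun a x hx σ h => by simp [hx σ h]

/-- A finite cell complex with an action of a cyclic group by cellular maps (a finite equivariant
CW complex): `cell q` is the set of the cells of dimension `q - 1` (so `cell 0` consists of the empty
cell, and the homology is the reduced homology), `rot` is the action of the generator, and `inc` are
the incidence numbers of the cellular boundary. The last condition says that the closure of a cell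
which is fixed by a power of the generator consists of fixed cells. -/
structure Cells where
  /-- the cells of dimension `q - 1` -/
  cell : ℕ → Type
  /-- there are finitely many cells -/
  fin : ∀ q, Fintype (cell q)
  /-- the action of the generator -/
  rot : ∀ q, Equiv.Perm (cell q)
  /-- the incidence numbers -/
  inc : ∀ q, cell (q + 1) → cell q → ℤ
  inc_rot : ∀ q σ τ, inc q (rot (q + 1) σ) (rot q τ) = inc q σ τ
  inc_inc : ∀ q (σ : cell (q + 1 + 1)) (ρ : cell q),
    ∑ τ : cell (q + 1), inc (q + 1) σ τ * inc q τ ρ = 0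
  /-- the cells have dimension less than `dim` -/
  dim : ℕ
  empty : ∀ q, dim < q → IsEmpty (cell q)
  inc_fixed : ∀ q (m : ℕ) σ τ, inc q σ τ ≠ 0 → (rot (q + 1) ^ m) σ = σ → (rot q ^ m) τ = τ

attribute [instance] Cells.fin

namespace Cells

variable (K : Cells)

/-- The cellular boundary. -/
def bd (q : ℕ) : (K.cell (q + 1) → ℤ) →ₗ[ℤ] (K.cell q → ℤ) where
  toFun x τ := ∑ σ, x σ * K.inc q σ τ
  map_add' x y := by
    ext τ
    simp [add_mul, Finset.sum_add_distrib]
  map_smul' a x := by
    ext τ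
    simp [Finset.mul_sum, mul_assoc]

lemma bd_bd (q : ℕ) (x : K.cell (q + 1 + 1) → ℤ) : K.bd q (K.bd (q + 1) x) = 0 := by
  ext ρ
  simp only [bd, LinearMap.coe_mk, AddHom.coe_mk, Pi.zero_apply, Finset.sum_mul]
  rw [Finset.sum_comm]
  refine Finset.sum_eq_zero fun σ _ => ?_
  simp only [mul_assoc]
  rw [← Finset.mul_sum, K.inc_inc, mul_zero]

lemma bd_sh (q : ℕ) (x : K.cell (q + 1) → ℤ) :
    K.bd q (sh (K.rot (q + 1)) x) = sh (K.rot q) (K.bd q x) := by
  ext τ
  simp only [bd, sh, LinearMap.coe_mk, AddHom.coe_mk, LinearMap.funLeft_apply]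
  rw [← Equiv.sum_comp (K.rot (q + 1))]
  refine Finset.sum_congr rfl fun σ _ => ?_
  rw [Equiv.symm_apply_apply, ← K.inc_rot q σ ((K.rot q).symm τ), Equiv.apply_symm_apply]

lemma bd_mem (m q : ℕ) (x : K.cell (q + 1) → ℤ) (hx : x ∈ supp (K.rot (q + 1)) m) :
    K.bd q x ∈ supp (K.rot q) m := by
  intro τ hτ
  refine Finset.sum_eq_zero fun σ _ => ?_
  by_cases h1 : K.inc q σ τ = 0
  · rw [h1, mul_zero]
  · rw [hx σ fun h2 => hτ (K.inc_fixed q m σ τ h1 h2), zero_mul]

lemma sh_mem {E : Type} (ρ : Equiv.Perm E) (m : ℕ) (x : E → ℤ) (hx : x ∈ supp ρ m) :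
    sh ρ x ∈ supp ρ m := by
  intro σ hσ
  refine hx (ρ.symm σ) fun h => hσ ?_
  have h1 : (ρ ^ m) (ρ (ρ.symm σ)) = ρ ((ρ ^ m) (ρ.symm σ)) :=
    DFunLike.congr_fun ((Commute.refl ρ).pow_left m).eq (ρ.symm σ)
  rw [h, Equiv.apply_symm_apply] at h1
  exact h1

/-- The complex of the chains supported on the cells which are fixed by the `m`-th power of the
generator; its homology is the reduced homology of the set of the fixed points of this power. -/
def sub (m : ℕ) : Cx where
  X q := supp (K.rot q) m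
  grp _ := inferInstance
  d q := (K.bd q).restrict (K.bd_mem m q)
  h q := (sh (K.rot q)).restrict (sh_mem (K.rot q) m)
  d_d q x := Subtype.ext (K.bd_bd q x)
  d_h q x := Subtype.ext (K.bd_sh q x)
  dim := K.dim
  bdd q hq x := by
    have := K.empty q hq
    exact Subtype.ext (funext fun σ => isEmptyElim σ)

end Cells

/-! ### Orlik's numbers -/

/-- The indices `i` for which `p ^ t` divides the weight `w i`. -/
def idx {n : ℕ} (w : Fin (n + 1) → ℕ) (p t : ℕ) : Finset (Fin (n + 1)) :=
  Finset.univ.filter fun i => p ^ t ∣ w i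

/-- The Milnor-Orlik sum for the set `I` of variables. -/
noncomputable def orlikSum {n : ℕ} (u v : Fin (n + 1) → ℕ) (I : Finset (Fin (n + 1))) : ℚ :=
  ∑ J ∈ I.powerset, (-1 : ℚ) ^ (I.card - J.card) *
    ((∏ j ∈ J, (u j : ℚ)) / ((∏ j ∈ J, (v j : ℚ)) * ((J.lcm u : ℕ) : ℚ)))

end Pool.Agent.W2helper44.OT
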