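import Pool.Agent.W2helper44.OT.Main

/-!
# The torsion of the coinvariants for actions with spherical fixed point sets
-/

set_option autoImplicit false

namespace Pool.Agent.W2helper44.OT

open Module

/-- All subgroups of prime power order of the cyclic group of order `d` have fixed point sets with
homology in one dimension: `a p t - 1` for the subgroup of order `p ^ t`; it is `n - 1` for the trivial
subgroup. -/
def Cells.HasSphericalFixedSets (K : Cells) (d : ℕ) (a : ℕ → ℕ → ℕ) (n : ℕ) : Prop :=
  ∀ p : ℕ, p.Prime → a p 0 = n ∧ ∀ t : ℕ, p ^ t ∣ d → K.IsSpherical (d / p ^ t) (a p t)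

/-- The number of the `t`, `1 ≤ t ≤ v_p(d)`, such that the dimensions of the whole complex and of the
fixed point set of the subgroup of order `p ^ t` have different parity, and the invariants in the
homology of the latter have rank larger than `j`. -/
noncomputable def Cells.expo (K : Cells) (d : ℕ) (a : ℕ → ℕ → ℕ) (n p j : ℕ) : ℕ :=
  ((Finset.Icc 1 (d.factorization p)).filter fun t =>
    (n + a p t) % 2 = 1 ∧ j < K.invRank (d / p ^ t) (a p t)).card

/-- The elementary divisors. -/
noncomputable def Cells.elemDiv (K : Cells) (d : ℕ) (a : ℕ → ℕ → ℕ) (n j : ℕ) : ℕ :=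
  ∏ p ∈ d.primeFactors, p ^ K.expo d a n p j

lemma elemDiv_fact (d : ℕ) (g : ℕ → ℕ) (hg : ∀ p, p ∉ d.primeFactors → g p = 0) (p : ℕ) :
    (∏ q ∈ d.primeFactors, q ^ g q).factorization p = g p := by
  classical
  have h1 : (∏ q ∈ d.primeFactors, q ^ g q).factorization =
      ∑ q ∈ d.primeFactors, (q ^ g q).factorization :=
    Nat.factorization_prod fun q hq => pow_ne_zero _ (Nat.prime_of_mem_primeFactors hq).ne_zero
  rw [h1, Finset.sum_apply']
  have h2 : ∀ q ∈ d.primeFactors, (q ^ g q).factorization p = if q = p then g q else 0 := by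
    intro q hq
    rw [(Nat.prime_of_mem_primeFactors hq).factorization_pow, Finsupp.single_apply]
  rw [Finset.sum_congr rfl h2, Finset.sum_ite_eq']
  split_ifs with h3
  · rfl
  · exact (hg p h3).symm

theorem coinv (hONE : P_ONE) (hPAIR : P_PAIR) (hPERM : P_PERM) (hUNIT : P_UNIT)
    (hODD : P_ODD) (hEVEN : P_EVEN) (hTOT : P_TOT) (hTORS : P_TORS) (hCLASS : P_CLASS)
    (K : Cells) (d : ℕ) (hd : 0 < d) (a : ℕ → ℕ → ℕ) (n : ℕ)
    (hK : K.HasSphericalFixedSets d a n) (R : ℕ)
    (hR : ∀ p t : ℕ, p.Prime → p ^ t ∣ d → K.invRank (d / p ^ t) (a p t) ≤ R) :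
    Nonempty (AddCommGroup.torsion ((K.sub d).H n ⧸ LinearMap.range ((K.sub d).hH n - 1)) ≃+
      ((j : Fin R) → ZMod (K.elemDiv d a n j))) := by
  classical
  have hfree : ∀ (x : (K.sub d).H n) (z : ℤ), z ≠ 0 → z • x = 0 → x = 0 := by
    have key : ∀ m0 a0, m0 = d → a0 = n →
        (∀ (x : (K.sub m0).H a0) (z : ℤ), z ≠ 0 → z • x = 0 → x = 0) →
        ∀ (x : (K.sub d).H n) (z : ℤ), z ≠ 0 → z • x = 0 → x = 0 := by
      rintro m0 a0 rfl rfl h
      exact h
    exact key _ _ (by simp) (hK 2 Nat.prime_two).1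
      (sph_free ((hK 2 Nat.prime_two).2 0 (by simp)))
  have hfin := sub_finite K d n
  have hpow : ∀ x : (K.sub d).H n, ((K.sub d).hH n ^ d) x = x :=
    hH_pow _ _ _ fun x => sub_pow_one K _ _ x
  obtain ⟨⟨e1⟩, hT⟩ := hTORS _ ((K.sub d).hH n) d hd hfree hpow
  have hex : ∀ j p, p ∉ d.primeFactors → K.expo d a n p j = 0 := by
    intro j p hp
    have h1 : d.factorization p = 0 := by
      rwa [← Finsupp.notMem_support_iff, Nat.support_factorization]
    unfold Cells.expo
    rw [h1]
    simp
  obtain ⟨e2⟩ := hCLASS (Tate ((K.sub d).H n) ((K.sub d).hH n) d 1) R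
    (fun j => K.elemDiv d a n j)
    (fun j => Finset.prod_pos fun p hp => pow_pos (Nat.prime_of_mem_primeFactors hp).pos _) (by
      intro p k' hp
      set e := d.factorization p with he
      have hdvd : ∀ t ≤ e, p ^ t ∣ d := fun t ht =>
        (hp.pow_dvd_iff_le_factorization hd.ne').2 ht
      have hrec := rec_main hONE hPAIR hPERM hUNIT hODD hEVEN hTOT K p hp
        (fun t => d / p ^ t) (fun t => a p t) e
        (by
          intro t ht
          obtain ⟨q, hq⟩ := hdvd (t + 1) ht
          have h1 : d = p ^ t * (p * q) := by rw [hq, pow_succ]; ring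
          have h2 : d / p ^ t = p * q := by
            rw [h1]
            exact Nat.mul_div_cancel_left _ (pow_pos hp.pos _)
          have h3 : d / p ^ (t + 1) = q := by
            rw [hq]
            exact Nat.mul_div_cancel_left _ (pow_pos hp.pos _)
          change d / p ^ t = p * (d / p ^ (t + 1))
          rw [h2, h3])
        (fun t ht => Nat.div_pos (Nat.le_of_dvd hd (hdvd t ht)) (pow_pos hp.pos _))
        (Nat.not_dvd_ordCompl hp hd.ne')
        (fun t ht => sph_conc ((hK p hp).2 t (hdvd t ht)))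
        (fun t ht => sph_free ((hK p hp).2 t (hdvd t ht)))
        (fun t => K.invRank (d / p ^ t) (a p t)) (fun t _ => invRank_eq _ _ _) R
        (fun t ht => hR p t hp (hdvd t ht)) e 0 (by omega) 1 k'
      have htrans : ∀ m0 a0, m0 = d → a0 = n →
          cc p k' (Tate ((K.sub m0).H a0) ((K.sub m0).hH a0) m0 1) =
          cc p k' (Tate ((K.sub d).H n) ((K.sub d).hH n) d 1) := by
        rintro m0 a0 rfl rfl
        rfl
      rw [← htrans (d / p ^ 0) (a p 0) (by simp) (hK p hp).1]
      refine hrec.trans ?_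
      congr 1
      unfold tot
      rw [Finset.sum_range]
      refine Finset.sum_congr rfl fun j _ => ?_
      have h5 : (K.elemDiv d a n j).factorization p = K.expo d a n p j :=
        elemDiv_fact d (fun p => K.expo d a n p j) (hex j) p
      rw [h5, Finset.filter_filter]
      unfold Cells.expo
      congr 2
      ext t
      simp only [Finset.mem_filter, Finset.mem_Ioc, Finset.mem_Icc]
      rw [(hK p hp).1, Nat.even_iff]
      constructor
      · rintro ⟨⟨h1, h2⟩, h3, h4⟩
        exact ⟨⟨by omega, h2⟩, by omega, h4⟩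
      · rintro ⟨⟨h1, h2⟩, h3, h4⟩
        exact ⟨⟨by omega, h2⟩, by omega, h4⟩)
  exact ⟨e1.trans e2⟩

end Pool.Agent.W2helper44.OT
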