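import Pool.Agent.W2helper44.OT.Defs

/-!
# The known topology of the Milnor fibre of a weighted homogeneous polynomial
-/

set_option autoImplicit false

namespace Pool.Agent.W2helper44.OT

open Module MvPolynomial

/-! ### The link and Orlik's recipe -/

section link

variable {n : ℕ}

/-- `f` is weighted homogeneous of degree `d` with the weights `w i`, and quasi-smooth: `0` is the only
common zero of its partial derivatives, if there is any. -/
def IsQuasiSmooth (w : Fin (n + 1) → ℕ) (d : ℕ) (f : MvPolynomial (Fin (n + 1)) ℂ) : Prop :=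
  IsWeightedHomogeneous w f d ∧
    ∀ z : Fin (n + 1) → ℂ, (∀ i, eval z (pderiv i f) = 0) → z = 0

/-- The link `L_f`: the zeros of `f` on the unit sphere. -/
noncomputable def linkSpace (f : MvPolynomial (Fin (n + 1)) ℂ) : TopCat :=
  TopCat.of {z : Fin (n + 1) → ℂ // eval z f = 0 ∧ ∑ i, Complex.normSq (z i) = 1}

/-- The homology group `H_{n-1}(L_f, ℤ)`. -/
noncomputable def linkHomology (f : MvPolynomial (Fin (n + 1)) ℂ) : ModuleCat.{0} ℤ :=
  ((AlgebraicTopology.singularHomologyFunctor (ModuleCat.{0} ℤ) (n - 1)).obj
    (ModuleCat.of ℤ ℤ)).obj (linkSpace f)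

/-- `u_i = d / gcd (d, w_i)`. -/
def uOf (w : Fin (n + 1) → ℕ) (d : ℕ) (i : Fin (n + 1)) : ℕ := d / Nat.gcd d (w i)

/-- `v_i = w_i / gcd (d, w_i)`. -/
def vOf (w : Fin (n + 1) → ℕ) (d : ℕ) (i : Fin (n + 1)) : ℕ := w i / Nat.gcd d (w i)

/-- `c` satisfies Orlik's recursion: the product of the `c J`, `J ⊆ I`, is the greatest common divisor
of the `u i`, `i ∉ I`. -/
def IsOrlikC (u : Fin (n + 1) → ℕ) (c : Finset (Fin (n + 1)) → ℕ) : Prop :=
  ∀ I : Finset (Fin (n + 1)), ∏ J ∈ I.powerset, c J = (Finset.univ \ I).gcd u

/-- Orlik's numbers `k_I`. -/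
noncomputable def orlikK (w : Fin (n + 1) → ℕ) (d : ℕ) (I : Finset (Fin (n + 1))) : ℚ :=
  (if (n + 1 - I.card) % 2 = 1 then (1 : ℚ) else 0) * orlikSum (uOf w d) (vOf w d) I

/-- Orlik's number `r`, the integral part of the maximum of the `k_I`. -/
noncomputable def orlikR (w : Fin (n + 1) → ℕ) (d : ℕ) : ℕ :=
  ⌊Finset.univ.sup' Finset.univ_nonempty (orlikK w d)⌋₊

/-- Orlik's number `d_j`, the product of the `c_I` with `k_I ≥ j`. -/
noncomputable def orlikD (w : Fin (n + 1) → ℕ) (d : ℕ) (c : Finset (Fin (n + 1)) → ℕ) (j : ℕ) : ℕ :=
  ∏ I ∈ Finset.univ.filter (fun I => (j : ℚ) ≤ orlikK w d I), c I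

end link

/-! ### The homology of the fixed point sets -/

namespace Cells

variable (K : Cells) (m q : ℕ)

/-- The chains on the cells of dimension `q - 1` which are fixed by the `m`-th power of the
generator. -/
def Chain : Type := supp (K.rot q) m

instance : AddCommGroup (K.Chain m q) := inferInstanceAs (AddCommGroup (supp (K.rot q) m))

/-- The boundary of these chains. -/
def dC : K.Chain m (q + 1) →ₗ[ℤ] K.Chain m q := (K.bd q).restrict (K.bd_mem m q)

/-- The action of the generator on these chains. -/
def hC : K.Chain m q →ₗ[ℤ] K.Chain m q := (sh (K.rot q)).restrict (sh_mem (K.rot q) m)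

/-- The cycles. -/
def cyc : ∀ q, Submodule ℤ (K.Chain m q)
  | 0 => ⊤
  | q + 1 => LinearMap.ker (K.dC m q)

/-- The boundaries. -/
def bdy : Submodule ℤ (K.Chain m q) := LinearMap.range (K.dC m q)

/-- The group of the cycles. -/
def Cyc : Type := K.cyc m q

instance : AddCommGroup (K.Cyc m q) := inferInstanceAs (AddCommGroup (K.cyc m q))

/-- The boundaries, in the group of the cycles. -/
def bdyC : Submodule ℤ (K.Cyc m q) := (K.bdy m q).submoduleOf (K.cyc m q)

lemma hC_cyc (x : K.Chain m q) (hx : x ∈ K.cyc m q) : K.hC m q x ∈ K.cyc m q := by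
  cases q with
  | zero => trivial
  | succ q => exact (K.sub m).h_mem_Z (q + 1) x hx

/-- The action of the generator on the cycles. -/
def hZ : K.Cyc m q →ₗ[ℤ] K.Cyc m q := (K.hC m q).restrict (K.hC_cyc m q)

lemma hZ_bdy (x : K.Cyc m q) (hx : x ∈ K.bdyC m q) : K.hZ m q x ∈ K.bdyC m q :=
  (K.sub m).h_mem_B q _ hx

/-- The reduced homology in dimension `q - 1` of the set of the fixed points of the `m`-th power of the
generator: cycles modulo boundaries. -/
def Hom : Type := K.Cyc m q ⧸ K.bdyC m q

instance : AddCommGroup (K.Hom m q) := inferInstanceAs (AddCommGroup (K.Cyc m q ⧸ K.bdyC m q))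

/-- The action of the generator on the homology. -/
def act : K.Hom m q →ₗ[ℤ] K.Hom m q := Submodule.mapQ _ _ (K.hZ m q) (K.hZ_bdy m q)

/-- `h - 1` on the homology, `h` the action of the generator. -/
def actSub : K.Hom m q →ₗ[ℤ] K.Hom m q := K.act m q - 1

/-- The rank of the group of the elements of the homology which are invariant under the generator. -/
noncomputable def invRank : ℕ := finrank ℤ (LinearMap.ker (K.actSub m q))

/-- The cokernel of `h - 1` on the homology, `h` the action of the generator. -/
def Coinv : Type := K.Hom m q ⧸ LinearMap.range (K.actSub m q)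

instance : AddCommGroup (K.Coinv m q) :=
  inferInstanceAs (AddCommGroup (K.Hom m q ⧸ LinearMap.range (K.actSub m q)))

/-- The reduced homology of the set of the fixed points of the `m`-th power of the generator vanishes
outside dimension `a - 1`, and it is torsion-free in dimension `a - 1`. -/
def IsSpherical (a : ℕ) : Prop :=
  (∀ q, q ≠ a → K.cyc m q ≤ K.bdy m q) ∧
    ∀ (x : K.Hom m a) (z : ℤ), z ≠ 0 → z • x = 0 → x = 0

end Cells

/-! ### The known facts -/

/-- The known facts on the Milnor fibre `F = f⁻¹(1)` of a quasi-smooth weighted homogeneous polynomial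
`f` in `n + 1` variables, with weights `w i` and degree `d`, and on its link. The cell complex `K` is
a finite equivariant cell structure (a finite equivariant CW complex) of an equivariant deformation
retract of `F`, with the action of the cyclic group of order `d` generated by the monodromy
`z i ↦ exp (2 π √-1 w i / d) z i`; it exists because `F` is equivariantly homotopy equivalent to a compact
manifold with boundary (Milnor, Illman). The subgroup of order `p ^ t` of this group is generated by
the power `d / p ^ t` of the monodromy, and its fixed point set in `F` is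
`F ∩ {z | z i = 0 unless p ^ t ∣ w i}`, which is the Milnor fibre of the restriction of `f` to
this coordinate subspace (also quasi-smooth); `idx w p t` is the set of its coordinates. -/
structure KnownTopology {n : ℕ} (w : Fin (n + 1) → ℕ) (d : ℕ) (f : MvPolynomial (Fin (n + 1)) ℂ)
    (K : Cells) : Prop where
  /-- there is exactly one cell of dimension `-1`, the empty cell -/
  empty_cell : ∃ x : K.cell 0, ∀ y, y = x
  /-- the augmentation -/
  augmentation : ∀ σ τ, K.inc 0 σ τ = 1
  /-- the monodromy has order `d` -/
  order : ∀ q σ, (K.rot q ^ d) σ = σ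
  /-- Milnor: the Milnor fibre in `s` variables has the homotopy type of a bouquet of spheres of
  dimension `s - 1`: the reduced homology vanishes in the other dimensions and is torsion-free in
  dimension `s - 1` -/
  milnor : ∀ p t : ℕ, p.Prime → p ^ t ∣ d → K.IsSpherical (d / p ^ t) (idx w p t).card
  /-- Milnor and Orlik: the rank of the group of the elements which are invariant under the
  monodromy -/
  rank : ∀ p t : ℕ, p.Prime → p ^ t ∣ d →
    (K.invRank (d / p ^ t) (idx w p t).card : ℚ) =
      orlikSum (uOf w d) (vOf w d) (idx w p t)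
  /-- Milnor (Wang sequence and duality): the torsion of the homology group `H_{n-1}` of the link is
  the torsion of the cokernel of `h - 1` on the reduced homology `H_n` of the Milnor fibre, where
  `h` is the monodromy -/
  link : Nonempty (AddCommGroup.torsion (linkHomology f) ≃+
    AddCommGroup.torsion (K.Coinv d (n + 1)))

end Pool.Agent.W2helper44.OT
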