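import Pool.Agent.W2helper44.OT.Rec2
import Pool.Agent.W2helper44.OT.Model

/-!
# Orlik's conjecture
-/

set_option autoImplicit false

namespace Pool.Agent.W2helper44.OT

open Module MvPolynomial

lemma idx_zero {n : ℕ} (w : Fin (n + 1) → ℕ) (p : ℕ) : (idx w p 0).card = n + 1 := by
  simp [idx]

lemma sph_conc {K : Cells} {m a : ℕ} (h : K.IsSpherical m a) (q : ℕ) (hq : q ≠ a) :
    (K.sub m).Z q ≤ (K.sub m).B q := by
  have h1 := h.1 q hq
  cases q with
  | zero => exact h1
  | succ q => exact h1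

lemma sph_free {K : Cells} {m a : ℕ} (h : K.IsSpherical m a) :
    ∀ (x : (K.sub m).H a) (z : ℤ), z ≠ 0 → z • x = 0 → x = 0 := by
  have h1 := h.2
  cases a with
  | zero => exact h1
  | succ a => exact h1

lemma invRank_eq (K : Cells) (m a : ℕ) :
    K.invRank m a = finrank ℤ (LinearMap.ker ((K.sub m).hH a - 1)) := by
  cases a with
  | zero => rfl
  | succ a => rfl

theorem orlik (hONE : P_ONE) (hPAIR : P_PAIR) (hPERM : P_PERM) (hUNIT : P_UNIT)
    (hODD : P_ODD) (hEVEN : P_EVEN) (hTOT : P_TOT) (hTORS : P_TORS) (hCLASS : P_CLASS)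
    (hORL : P_ORL) (n : ℕ) (w : Fin (n + 1) → ℕ) (d : ℕ) (f : MvPolynomial (Fin (n + 1)) ℂ)
    (hw : ∀ i, 0 < w i) (hd : 0 < d) (K : Cells) (hK : KnownTopology w d f K)
    (c : Finset (Fin (n + 1)) → ℕ) (hc : IsOrlikC (uOf w d) c) :
    Nonempty (AddCommGroup.torsion (linkHomology f) ≃+
      ((j : Fin (orlikR w d)) → ZMod (orlikD w d c (j + 1)))) := by
  classical
  obtain ⟨e0'⟩ := hK.link
  have e0 : AddCommGroup.torsion (linkHomology f) ≃+
    AddCommGroup.torsion ((K.sub d).H (n + 1) ⧸ LinearMap.range ((K.sub d).hH (n + 1) - 1)) := e0'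
  have hu : ∀ i, uOf w d i = d / Nat.gcd d (w i) := fun i => rfl
  set k := orlikK w d with hkdef
  have hk : ∀ I, k I = (if (n + 1 - I.card) % 2 = 1 then (1 : ℚ) else 0) *
      orlikSum (uOf w d) (vOf w d) I := fun I => rfl
  have hfree : ∀ (x : (K.sub d).H (n + 1)) (z : ℤ), z ≠ 0 → z • x = 0 → x = 0 := by
    have key : ∀ m0 a0, m0 = d → a0 = n + 1 →
        (∀ (x : (K.sub m0).H a0) (z : ℤ), z ≠ 0 → z • x = 0 → x = 0) →
        ∀ (x : (K.sub d).H (n + 1)) (z : ℤ), z ≠ 0 → z • x = 0 → x = 0 := by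
      rintro m0 a0 rfl rfl h
      exact h
    exact key _ _ (by simp) (idx_zero w 2) (sph_free (hK.milnor 2 0 Nat.prime_two (by simp)))
  have hfin := sub_finite K d (n + 1)
  have hpow : ∀ x : (K.sub d).H (n + 1), ((K.sub d).hH (n + 1) ^ d) x = x :=
    hH_pow _ _ _ fun x => sub_pow_one K _ _ x
  obtain ⟨⟨e1⟩, hT⟩ := hTORS _ ((K.sub d).hH (n + 1)) d hd hfree hpow
  have hkuniv : k Finset.univ ≤ 0 := by
    rw [hk, Finset.card_univ, Fintype.card_fin]
    simp
  have horl := fun j => hORL n w d hw hd (uOf w d) hu c hc k hkuniv j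
  obtain ⟨e2⟩ := hCLASS (Tate ((K.sub d).H (n + 1)) ((K.sub d).hH (n + 1)) d 1)
    ⌊Finset.univ.sup' Finset.univ_nonempty k⌋₊
    (fun j => ∏ I ∈ Finset.univ.filter (fun I => (((j : ℕ) + 1 : ℕ) : ℚ) ≤ k I), c I)
    (fun j => (horl j).1) (by
      intro p k' hp
      -- the recursion
      set e := d.factorization p with he
      have hdvd : ∀ t ≤ e, p ^ t ∣ d := fun t ht =>
        (hp.pow_dvd_iff_le_factorization hd.ne').2 ht
      set r : ℕ → ℕ := fun t =>
        finrank ℤ (LinearMap.ker ((K.sub (d / p ^ t)).hH (idx w p t).card - 1)) with hr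
      set r0 := ⌊Finset.univ.sup' Finset.univ_nonempty k⌋₊ with hr0
      have hkt : ∀ t ≤ e, k (idx w p t) =
          (if (n + 1 - (idx w p t).card) % 2 = 1 then (1 : ℚ) else 0) * r t := by
        intro t ht
        rw [hk, ← hK.rank p t hp (hdvd t ht), invRank_eq]
      have hrec := rec_main hONE hPAIR hPERM hUNIT hODD hEVEN hTOT K p hp
        (fun t => d / p ^ t) (fun t => (idx w p t).card) e
        (by
          intro t ht
          obtain ⟨q, hq⟩ := hdvd (t + 1) ht
          have h1 : d = p ^ t * (p * q) := by rw [hq, pow_succ]; ring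
          have h2 : d / p ^ t = p * q := by
            rw [h1]
            exact Nat.mul_div_cancel_left _ (pow_pos hp.pos _)
          have h3 : d / p ^ (t + 1) = q := by
            rw [hq]
            exact Nat.mul_div_cancel_left _ (pow_pos hp.pos _)
          change d / p ^ t = p * (d / p ^ (t + 1))
          rw [h2, h3])
        (fun t ht => Nat.div_pos (Nat.le_of_dvd hd (hdvd t ht)) (pow_pos hp.pos _))
        (Nat.not_dvd_ordCompl hp hd.ne')
        (fun t ht => sph_conc (hK.milnor p t hp (hdvd t ht)))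
        (fun t ht => sph_free (hK.milnor p t hp (hdvd t ht)))
        r (fun t _ => rfl) (r0 + ∑ t ∈ Finset.range (e + 1), r t)
        (fun t ht => le_trans (Finset.single_le_sum (f := r) (fun _ _ => Nat.zero_le _)
          (Finset.mem_range.2 (by omega))) (Nat.le_add_left _ _)) e 0 (by omega) 1 k'
      have htrans : ∀ m0 a0, m0 = d → a0 = n + 1 →
          cc p k' (Tate ((K.sub m0).H a0) ((K.sub m0).hH a0) m0 1) =
          cc p k' (Tate ((K.sub d).H (n + 1)) ((K.sub d).hH (n + 1)) d 1) := by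
        rintro m0 a0 rfl rfl
        rfl
      rw [← htrans (d / p ^ 0) (idx w p 0).card (by simp) (idx_zero w p)]
      refine hrec.trans ?_
      congr 1
      have hpar : ∀ t ≤ e, (Even (1 + (idx w p 0).card + (idx w p t).card) ↔
          (n + 1 - (idx w p t).card) % 2 = 1) := by
        intro t _
        have h1 : (idx w p t).card ≤ n + 1 := by
          refine (Finset.card_le_univ _).trans ?_
          simp
        rw [idx_zero, Nat.even_iff]
        omega
      have hle : ∀ t ∈ (Finset.Ioc 0 e).filter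
          (fun t' => Even (1 + (idx w p 0).card + (idx w p t').card)), r t ≤ r0 := by
        intro t ht
        simp only [Finset.mem_filter, Finset.mem_Ioc] at ht
        have h1 := hkt t ht.1.2
        rw [if_pos ((hpar t ht.1.2).1 ht.2), one_mul] at h1
        refine Nat.le_floor ?_
        rw [← h1]
        exact Finset.le_sup' k (Finset.mem_univ _)
      rw [hTOT.2.2 r0 (r0 + ∑ t ∈ Finset.range (e + 1), r t) _ r (Nat.le_add_right _ _) hle k']
      unfold tot
      rw [Finset.sum_range]
      refine Finset.sum_congr rfl fun j _ => ?_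
      rw [(horl j).2 p hp, Finset.filter_filter]
      congr 2
      ext t
      simp only [Finset.mem_filter, Finset.mem_Ioc, Finset.mem_Icc]
      constructor
      · rintro ⟨⟨h1, h2⟩, h3, h4⟩
        refine ⟨⟨by omega, h2⟩, ?_⟩
        rw [hkt t h2, if_pos ((hpar t h2).1 h3), one_mul]
        exact_mod_cast h4
      · rintro ⟨⟨h1, h2⟩, h3⟩
        rw [hkt t h2] at h3
        by_cases h5 : (n + 1 - (idx w p t).card) % 2 = 1
        · rw [if_pos h5, one_mul] at h3
          refine ⟨⟨by omega, h2⟩, (hpar t h2).2 h5, ?_⟩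
          exact_mod_cast h3
        · rw [if_neg h5, zero_mul] at h3
          exfalso
          have : (0 : ℚ) < ((((j : ℕ) + 1 : ℕ)) : ℚ) := by positivity
          linarith)
  exact ⟨(e0.trans e1).trans e2⟩

end Pool.Agent.W2helper44.OT
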