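import Pool.Agent.W2helper44.OT.Stm

/-!
# The recursion over the fixed point sets
-/

set_option autoImplicit false

namespace Pool.Agent.W2helper44.OT

open Module

section general

variable {M : Type} [AddCommGroup M]

lemma op_congr (h : M →ₗ[ℤ] M) (m : ℕ) {s s' : ℕ} (hs : Even s ↔ Even s') :
    op h m s = op h m s' := by
  unfold op
  by_cases h1 : Even s
  · rw [if_pos h1, if_pos (hs.1 h1)]
  · rw [if_neg h1, if_neg fun h2 => h1 (hs.2 h2)]

lemma cc_tate_congr (h : M →ₗ[ℤ] M) (m p k : ℕ) {s s' : ℕ} (hs : Even s ↔ Even s') :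
    cc p k (Tate M h m s) = cc p k (Tate M h m s') := by
  have h1 := op_congr h m hs
  have h2 : op h m (s + 1) = op h m (s' + 1) := op_congr h m (by
    rw [Nat.even_add_one, Nat.even_add_one, hs])
  unfold Tate
  rw [h1, h2]

lemma cc_congr {T T' : Type} [AddCommGroup T] [AddCommGroup T'] (e : T ≃ₗ[ℤ] T') (p k : ℕ) :
    cc p k T = cc p k T' := by
  unfold cc
  refine Nat.card_congr (Submodule.Quotient.equiv _ _ e ?_).toEquiv
  ext x
  constructor
  · rintro ⟨_, ⟨y, rfl⟩, rfl⟩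
    exact ⟨e y, (map_smul e _ y).symm⟩
  · rintro ⟨y, rfl⟩
    refine ⟨_, ⟨e.symm y, rfl⟩, ?_⟩
    change e ((((p : ℤ) ^ k) • (e.symm y))) = ((p : ℤ) ^ k) • y
    rw [map_smul, e.apply_symm_apply]

lemma cc_zero (T : Type) [AddCommGroup T] (p : ℕ) : cc p 0 T = 1 := by
  unfold cc
  rw [pow_zero, one_smul, LinearMap.range_id]
  rw [Nat.card_eq_one_iff_unique]
  exact ⟨inferInstance, inferInstance⟩

lemma restrict_pow (W : Submodule ℤ M) (f : M →ₗ[ℤ] M) (hf : ∀ x ∈ W, f x ∈ W) (j : ℕ) (x : W) :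
    ((((f.restrict hf : W →ₗ[ℤ] W) ^ j : Module.End ℤ W) x : W) : M) =
      ((f ^ j : Module.End ℤ M) x) := by
  induction j with
  | zero => simp
  | succ j ih =>
    rw [pow_succ', pow_succ', Module.End.mul_apply, Module.End.mul_apply, ← ih]
    rfl

lemma restrict_op (W : Submodule ℤ M) (f : M →ₗ[ℤ] M) (hf : ∀ x ∈ W, f x ∈ W) (m s : ℕ) (x : W) :
    ((op (f.restrict hf : W →ₗ[ℤ] W) m s x : W) : M) = op f m s x := by
  unfold op
  by_cases hs : Even s
  · rw [if_pos hs, if_pos hs]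
    simp
  · rw [if_neg hs, if_neg hs, LinearMap.sum_apply, LinearMap.sum_apply]
    rw [AddSubmonoidClass.coe_finsetSum]
    exact Finset.sum_congr rfl fun j _ => restrict_pow W f hf j x

end general

lemma sh_pow {E : Type} (ρ : Equiv.Perm E) (m : ℕ) (x : E → ℤ) (σ : E) :
    ((sh ρ ^ m : Module.End ℤ (E → ℤ)) x) σ = x ((ρ ^ m).symm σ) := by
  induction m generalizing σ with
  | zero => rfl
  | succ m ih =>
    rw [pow_succ', Module.End.mul_apply]
    change ((sh ρ ^ m : Module.End ℤ (E → ℤ)) x) (ρ.symm σ) = _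
    rw [ih]
    rfl

lemma sh_pow_supp {E : Type} (ρ : Equiv.Perm E) (m : ℕ) (x : E → ℤ) (hx : x ∈ supp ρ m) :
    (sh ρ ^ m : Module.End ℤ (E → ℤ)) x = x := by
  ext σ
  rw [sh_pow]
  by_cases h : (ρ ^ m) σ = σ
  · congr 1
    rw [Equiv.symm_apply_eq, h]
  · rw [hx σ h]
    refine hx _ fun h1 => h ?_
    rw [Equiv.apply_symm_apply] at h1
    conv_lhs => rw [h1]
    exact Equiv.apply_symm_apply _ _

lemma supp_mono {E : Type} (ρ : Equiv.Perm E) (m p : ℕ) : supp ρ m ≤ supp ρ (p * m) := by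
  intro x hx σ hσ
  refine hx σ fun h => hσ ?_
  have key : ∀ q : ℕ, ((ρ ^ m) ^ q) σ = σ := by
    intro q
    induction q with
    | zero => rfl
    | succ q ih => rw [pow_succ, Equiv.Perm.mul_apply, h, ih]
  rw [mul_comm, pow_mul]
  exact key p

lemma hZ_coe_pow (A : Cx) (q j : ℕ) (z : A.Z q) :
    (((A.hZ q ^ j : Module.End ℤ (A.Z q)) z : A.Z q) : A.X q) = (A.h q ^ j : Module.End ℤ _) z :=
  restrict_pow (A.Z q) (A.h q) (A.h_mem_Z q) j z

lemma hH_mk_pow (A : Cx) (q j : ℕ) (z : A.Z q) :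
    (A.hH q ^ j : Module.End ℤ (A.H q)) (Submodule.Quotient.mk z) =
      Submodule.Quotient.mk ((A.hZ q ^ j : Module.End ℤ (A.Z q)) z) := by
  induction j with
  | zero => rfl
  | succ j ih =>
    rw [pow_succ', pow_succ', Module.End.mul_apply, Module.End.mul_apply, ih]
    rfl

lemma hH_pow (A : Cx) (q m : ℕ) (hA : ∀ x : A.X q, (A.h q ^ m) x = x) (x : A.H q) :
    (A.hH q ^ m) x = x := by
  obtain ⟨z, rfl⟩ := Submodule.Quotient.mk_surjective _ x
  rw [hH_mk_pow]
  congr 1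
  exact Subtype.ext ((hZ_coe_pow A q m z).trans (hA z))

section cells

variable (K : Cells)

lemma sub_op (m m' s q : ℕ) (x : (K.sub m).X q) :
    (show supp (K.rot q) m from op ((K.sub m).h q) m' s x).1 =
      op (sh (K.rot q)) m' s x.1 :=
  restrict_op (supp (K.rot q) m) (sh (K.rot q)) (Cells.sh_mem (K.rot q) m) m' s x

lemma sub_pow (m p q : ℕ) (x : (K.sub m).X q) : ((K.sub m).h q ^ (p * m)) x = x := by
  refine Subtype.ext ?_
  refine (restrict_pow (supp (K.rot q) m) (sh (K.rot q)) (Cells.sh_mem (K.rot q) m) (p * m) x).trans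
    ?_
  exact sh_pow_supp _ _ _ (supp_mono _ _ _ x.2)

lemma sub_pow_one (m q : ℕ) (x : (K.sub m).X q) : ((K.sub m).h q ^ m) x = x := by
  have h := sub_pow K m 1 q x
  rwa [one_mul] at h

lemma sub_finite (m q : ℕ) : Module.Finite ℤ ((K.sub m).H q) := by
  have h1 : IsNoetherian ℤ (supp (K.rot q) m) := inferInstance
  have h2 : IsNoetherian ℤ ((K.sub m).X q) := h1
  infer_instance

theorem pair_sub (hPAIR : P_PAIR) (hPERM : P_PERM) (p m' : ℕ) (hp : p.Prime) (hm' : 0 < m')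
    (s k : ℕ) :
    cc p k ((K.sub m').G (p * m') s) = cc p k ((K.sub (p * m')).G (p * m') s) := by
  refine hPAIR (K.sub (p * m')) (K.sub m')
    (fun q => Submodule.inclusion (supp_mono (K.rot q) m' p)) (p * m') p
    ((p * m') / p ^ (p * m').factorization p) hp ?_ ?_ ?_ ?_ ?_ ?_ s k
  · exact Nat.not_dvd_ordCompl hp (Nat.mul_pos hp.pos hm').ne'
  · exact fun q => Submodule.inclusion_injective _
  · exact fun q x => rfl
  · exact fun q x => rfl
  · exact fun q x => sub_pow_one K _ q x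
  · intro q s x hx
    obtain ⟨z, hz⟩ := hx
    obtain ⟨w, y, hw, hy, h⟩ := hPERM (K.cell q) (K.rot q) p m' hp hm' s x.1 x.2 (by
      rw [← sub_op K (p * m') (p * m') s q x, ← hz]
      exact z.2)
    refine ⟨⟨w, hw⟩, ⟨y, hy⟩, Subtype.ext ?_⟩
    refine Eq.trans h ?_
    rw [← sub_op K (p * m') (p * m') (s + 1) q ⟨w, hw⟩]
    rfl

end cells

end Pool.Agent.W2helper44.OT
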