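import Pool.Agent.W2helper44.OT.Rec

/-!
# The recursion over the fixed point sets: the orders of the Tate groups
-/

set_option autoImplicit false

namespace Pool.Agent.W2helper44.OT

open Module

/-- The orders of the Tate groups of the homology of the fixed point sets. -/
theorem rec_main (hONE : P_ONE) (hPAIR : P_PAIR) (hPERM : P_PERM) (hUNIT : P_UNIT)
    (hODD : P_ODD) (hEVEN : P_EVEN) (hTOT : P_TOT)
    (K : Cells) (p : ℕ) (hp : p.Prime) (m a : ℕ → ℕ) (e : ℕ)
    (hm : ∀ t < e, m t = p * m (t + 1)) (hpos : ∀ t ≤ e, 0 < m t) (hpe : ¬ p ∣ m e)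
    (hconc : ∀ t ≤ e, ∀ q, q ≠ a t → (K.sub (m t)).Z q ≤ (K.sub (m t)).B q)
    (htf : ∀ t ≤ e, ∀ (x : (K.sub (m t)).H (a t)) (z : ℤ), z ≠ 0 → z • x = 0 → x = 0)
    (r : ℕ → ℕ)
    (hr : ∀ t ≤ e, r t = finrank ℤ (LinearMap.ker ((K.sub (m t)).hH (a t) - 1)))
    (R : ℕ) (hR : ∀ t ≤ e, r t ≤ R) :
    ∀ n t, t + n = e → ∀ s k,
      cc p k (Tate ((K.sub (m t)).H (a t)) ((K.sub (m t)).hH (a t)) (m t) s) =
        p ^ tot R ((Finset.Ioc t e).filter fun t' => Even (s + a t + a t')) r k := by
  intro n
  induction n with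
  | zero =>
    intro t ht s k
    obtain rfl : t = e := by omega
    rw [hUNIT _ _ _ p hp hpe (hH_pow _ _ _ fun x => sub_pow_one K _ _ x) s k, Finset.Ioc_self,
      Finset.filter_empty]
    simp [tot]
  | succ n ih =>
    intro t ht s k
    have ht1 : t + 1 ≤ e := by omega
    have hmt : m t = p * m (t + 1) := hm t (by omega)
    -- the shift
    have e1 : cc p k (Tate ((K.sub (m t)).H (a t)) ((K.sub (m t)).hH (a t)) (m t) s) =
        cc p k ((K.sub (m t)).G (m t) (s + a t)) := by
      obtain ⟨f⟩ := hONE (K.sub (m t)) (m t) (a t) (fun q x => sub_pow_one K _ q x)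
        (hconc t (by omega)) (s + a t)
      rw [cc_congr f]
      exact cc_tate_congr _ _ _ _ (by
        constructor
        · intro h
          have : s + a t + a t = s + 2 * a t := by ring
          rw [this]
          exact h.add (even_two_mul _)
        · intro h
          have h2 : s + a t + a t = s + 2 * a t := by ring
          rw [h2] at h
          exact (Nat.even_add.1 h).2 (even_two_mul _))
    have e2 : cc p k ((K.sub (m t)).G (m t) (s + a t)) =
        cc p k ((K.sub (m (t + 1))).G (m t) (s + a t)) := by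
      rw [hmt]
      exact (pair_sub K hPAIR hPERM p (m (t + 1)) hp (hpos _ ht1) _ k).symm
    have e3 : cc p k ((K.sub (m (t + 1))).G (m t) (s + a t)) =
        cc p k (Tate ((K.sub (m (t + 1))).H (a (t + 1))) ((K.sub (m (t + 1))).hH (a (t + 1)))
          (p * m (t + 1)) (s + a t + a (t + 1))) := by
      rw [hmt]
      obtain ⟨f⟩ := hONE (K.sub (m (t + 1))) (p * m (t + 1)) (a (t + 1))
        (fun q x => sub_pow K _ _ q x) (hconc (t + 1) ht1) (s + a t)
      rw [cc_congr f]
    rw [e1, e2, e3]
    have hp1 : ∀ x : (K.sub (m (t + 1))).H (a (t + 1)),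
        ((K.sub (m (t + 1))).hH (a (t + 1)) ^ (m (t + 1))) x = x :=
      hH_pow _ _ _ fun x => sub_pow_one K _ _ x
    have hfin := sub_finite K (m (t + 1)) (a (t + 1))
    have hset : ∀ s' : ℕ, (Even s' ↔ Even (s + a t + a (t + 1))) →
        (Finset.Ioc (t + 1) e).filter (fun t' => Even (s' + a (t + 1) + a t')) =
        (Finset.Ioc (t + 1) e).filter (fun t' => Even (s + a t + a t')) := by
      intro s' hs'
      refine Finset.filter_congr fun t' _ => ?_
      simp only [Nat.even_add] at hs' ⊢
      tauto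
    by_cases hs : Even (s + a t + a (t + 1))
    · have hins : (Finset.Ioc t e).filter (fun t' => Even (s + a t + a t')) =
          insert (t + 1) ((Finset.Ioc (t + 1) e).filter (fun t' => Even (s + a t + a t'))) := by
        ext t'
        simp only [Finset.mem_filter, Finset.mem_Ioc, Finset.mem_insert]
        constructor
        · rintro ⟨⟨h1, h2⟩, h3⟩
          by_cases h4 : t' = t + 1
          · exact Or.inl h4
          · exact Or.inr ⟨⟨by omega, h2⟩, h3⟩
        · rintro (rfl | ⟨⟨h1, h2⟩, h3⟩)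
          · exact ⟨⟨by omega, ht1⟩, hs⟩
          · exact ⟨⟨by omega, h2⟩, h3⟩
      rw [hins]
      cases k with
      | zero => rw [cc_zero, hTOT.2.1, pow_zero]
      | succ k =>
        obtain ⟨h1, h2⟩ := hEVEN _ ((K.sub (m (t + 1))).hH (a (t + 1))) (m (t + 1)) p hp
          (hpos _ ht1) (htf (t + 1) ht1) hp1 (s + a t + a (t + 1)) hs
        rw [h1 k, ← hr (t + 1) ht1]
        rw [← hr (t + 1) ht1] at h2
        have i1 := ih (t + 1) (by omega) (s + a t + a (t + 1))
        rw [hset _ Iff.rfl] at i1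
        rw [i1] at h2
        rw [i1, ← pow_add]
        congr 1
        rw [hTOT.1 R _ r (t + 1) (by simp) (hR _ ht1) (by
          intro t' ht'
          simp only [Finset.mem_filter, Finset.mem_Ioc] at ht'
          exact hR t' ht'.1.2) ((Nat.pow_le_pow_iff_right hp.one_lt).1 h2) k]
    · obtain ⟨f⟩ := hODD _ ((K.sub (m (t + 1))).hH (a (t + 1))) (m (t + 1)) p hp
        (htf (t + 1) ht1) hp1 (s + a t + a (t + 1)) hs
      rw [cc_congr f, ih (t + 1) (by omega), hset _ Iff.rfl]
      congr 2
      ext t'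
      simp only [Finset.mem_filter, Finset.mem_Ioc]
      constructor
      · rintro ⟨⟨h1, h2⟩, h3⟩
        exact ⟨⟨by omega, h2⟩, h3⟩
      · rintro ⟨⟨h1, h2⟩, h3⟩
        refine ⟨⟨?_, h2⟩, h3⟩
        by_contra h4
        obtain rfl : t' = t + 1 := by omega
        exact hs h3

end Pool.Agent.W2helper44.OT
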