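import Pool.Agent.W2helper44.OT.Defs

/-!
# Project OT (Orlik's conjecture, MP_1ba768_gt): the pieces

Every piece is a `def P_X : Prop`; prove it as `theorem p_X : P_X` in the file
`Pool/Agent/W2<you>/OT/<Name>.lean` (import only `Pool.Agent.W2helper44.OT.Stm`; own lemmas in an own
sub-namespace), land it and mail helper44. Notation: `op h m s` is `h - 1` for even `s` and the norm
`N = 1 + h + ⋯ + h ^ (m - 1)` for odd `s`; `Tate M h m s = ker (op s) / im (op (s + 1))`;
`cc p k T = |T / p ^ k T|`.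
-/

set_option autoImplicit false

namespace Pool.Agent.W2helper44.OT

open Module

/-- PIECE ONE. A complex with homology in the degree `a` only: its Tate hypercohomology is the Tate
cohomology of the homology (shifted by `a`).

Proof. Put `D s = A.D m s`, `τ s q = (-1)^q op (A.h q) m (s + q)`. From `h ^ m = 1`:
`op s ∘ op (s+1) = h^m - 1 = 0` (`(h-1) N = h^m - 1`), so `D s ∘ D (s+1) = 0` (the cross terms cancel
because of the signs). Let `Z' = {x ∈ ker (D s) | x q = 0 for q < a}`.
(i) For every `x ∈ ker (D s)` there is `y` with `x - D (s+1) y ∈ Z'`: upward induction on `q < a`: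
if `x i = 0` for `i < q`, then `d (x q) = 0` (the component `q - 1` of `D s x = 0`; nothing to check
for `q = 0`), so `x q = d b` with `b : A.X (q+1)`; subtract `D (s+1)` of the family which is `b` in
degree `q + 1`.
(ii) `Z' → Tate (A.H a) (A.hH a) m (s+a)`, `x ↦ [x a]`, is onto: for a cycle `z` with `τ z` a boundary
(this is the meaning of `[z] ∈ ker`), choose `x a = z` and recursively `x (q+1)` with
`d (x (q+1)) = - τ (x q)`; possible for `q = a` by assumption and for `q > a` because
`d τ (x q) = - τ d (x q) = τ τ (x (q-1)) = 0` and the complex is exact in degree `q`.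
(iii) For `x ∈ Z'`: `x ∈ im (D (s+1))` iff `[x a] ∈ im (op (s+1+a))`, i.e. `x a ∈ d(..) + τ(Z a)`.
Right to left: subtract `D (s+1)` of the family with `z` in degree `a` and `b` in degree `a+1`, to get
`x a = 0`; then upward: `d (x (a+1)) = 0`, so `x (a+1)` is a boundary, and so on; this stops because
`A.X q = 0` for `q > A.dim`. Left to right: if `x = D (s+1) y`, change `y` by elements `D s w` such
that `y q = 0` for `q < a` (as in (i)), then `y a` is a cycle and `x a = d (y (a+1)) + τ (y a)`.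
So both `Z' → G` and `Z' → Tate` are onto with the same kernel. -/
def P_ONE : Prop :=
  ∀ (A : Cx) (m a : ℕ), (∀ q (x : A.X q), (A.h q ^ m) x = x) →
    (∀ q, q ≠ a → A.Z q ≤ A.B q) →
    ∀ s : ℕ, Nonempty (A.G m s ≃ₗ[ℤ] Tate (A.H a) (A.hH a) m (s + a))

/-- PIECE PAIR. A subcomplex `A'` of `A` (by the injections `ι q`) such that `c` times the relative
Tate groups of all `A.X q / A'.X q` vanish, for an integer `c` prime to `p`: the Tate
hypercohomologies have the same orders modulo `p ^ k`.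

Proof. (a) If `x : ∀ q, A.X q` and `A.D m s x` has all its components in the images of the `ι q`, then
there are `w` and `y` with `c ^ N • x = ι y + A.D m (s+1) w`, `N = A.dim + 1`: downward induction on
`q` (all `x i` with `i > q` in the image of `ι`; true for `q = A.dim`, where `x i = 0` for `i > q`):
the component `q` of `D s x` is `d (x (q+1)) + (-1)^q op (s+q) (x q)`, so `op (s+q) (x q)` is in the
image of `ι q`, so `c • x q = ι y + op (s+q+1) w`; replace `x` by `c • x - D (s+1)` of (the family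
which is `(-1)^q w` in degree `q`). (b) So the map `G(A') → G(A)` given by `ι` has kernel and cokernel
killed by `c ^ N`: if `x ∈ ker (D s)` then `c^N x = ι y + D (s+1) w` and `y ∈ ker (A'.D s)`
(`ι` injective, `D s D (s+1) = 0`); if `ι y = D (s+1) x` then `c^N x = ι y' + D (s+2) w`
(`D (s+2) = D s`) and so `c^N y = A'.D (s+1) y'`. (c) A homomorphism `φ : T' → T` of abelian groups
whose kernel and cokernel are killed by an integer `C` prime to `p` gives a bijection
`T'/p^k → T/p^k` (with `a C + b p^k = 1`). -/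
def P_PAIR : Prop :=
  ∀ (A A' : Cx) (ι : ∀ q, A'.X q →ₗ[ℤ] A.X q) (m p c : ℕ), p.Prime → ¬ p ∣ c →
    (∀ q, Function.Injective (ι q)) →
    (∀ q (x : A'.X (q + 1)), ι q (A'.d q x) = A.d q (ι (q + 1) x)) →
    (∀ q (x : A'.X q), ι q (A'.h q x) = A.h q (ι q x)) →
    (∀ q (x : A.X q), (A.h q ^ m) x = x) →
    (∀ q (s : ℕ) (x : A.X q), op (A.h q) m s x ∈ LinearMap.range (ι q) →
      ∃ (w : A.X q) (y : A'.X q), (c : ℤ) • x = ι q y + op (A.h q) m (s + 1) w) →
    ∀ s k : ℕ, cc p k (A'.G m s) = cc p k (A.G m s)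

/-- PIECE PERM. Permutation modules: `ρ` a permutation of a finite set `E`, `n = p n'`, `p` prime,
`c = n / p ^ v_p(n)` (prime to `p`). If `x` is supported on the points fixed by `ρ ^ n`
and `op x` is supported on the points fixed by `ρ ^ n'`, then `c x = y + op' w` with `y` supported on
the points fixed by `ρ ^ n'` and `w` on those fixed by `ρ ^ n`.

Proof. The supports of both kinds are stable under `ρ`. Let `y = c x` on the points fixed by
`ρ ^ n'` and `0` elsewhere, and `x'` the restriction of `x` to the other points `σ` of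
`Fix (ρ ^ n)`; then `op x' = 0` (`op` commutes with the restrictions). The order `o` of the orbit of
such a `σ` divides `n` and not `n' = n / p`, so `v_p(o) = v_p(n)` and `b = n / o` divides `c`.
Case `op = sh ρ - 1`: `x'` is constant on orbits, and `w` is `(c / b) x'` at one point of each orbit
and `0` elsewhere: the norm `∑ j < n, (sh ρ)^j` of the characteristic function of a point `σ` is `b`
times the characteristic function of its orbit. Case `op = N`: the sum of `x'` over each orbit is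
zero (`(N x') σ = b · (sum over the orbit)`), so on the orbit of a chosen point `σ₀` (of order `o`)
`x' = (sh ρ - 1) w'` with `w' (ρ^i σ₀) = - ∑_{j ≤ i} x' (ρ^j σ₀)` for `0 ≤ i < o` (check the index
shift for `sh`, `(sh ρ x) σ = x (ρ⁻¹ σ)`); `w = c w'`. -/
def P_PERM : Prop :=
  ∀ (E : Type) [Fintype E] (ρ : Equiv.Perm E) (p n' : ℕ), p.Prime → 0 < n' →
    ∀ (s : ℕ) (x : E → ℤ), x ∈ supp ρ (p * n') → op (sh ρ) (p * n') s x ∈ supp ρ n' →
      ∃ w y : E → ℤ, w ∈ supp ρ (p * n') ∧ y ∈ supp ρ n' ∧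
        (((p * n') / p ^ (p * n').factorization p : ℕ) : ℤ) • x = y + op (sh ρ) (p * n') (s + 1) w

/-- PIECE UNIT. If `p` does not divide `m` and `h ^ m = 1`, then the Tate groups have order prime to
`p`: they are killed by `m`. Proof. Even case: if `h x = x` then `N x = m x`. Odd case: if `N x = 0`
then `m x = (m - N) x = ∑ (1 - h^j) x`, and `1 - h^j` is a multiple of `h - 1`. So `T` is killed by
`m`, hence `T = p^k T`, and `cc p k T = 1`. -/
def P_UNIT : Prop :=
  ∀ (M : Type) [AddCommGroup M] (h : M →ₗ[ℤ] M) (m p : ℕ), p.Prime → ¬ p ∣ m →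
    (∀ x, (h ^ m) x = x) → ∀ s k : ℕ, cc p k (Tate M h m s) = 1

/-- PIECE ODD. `M` torsion-free, `h ^ m' = 1`, `s` odd: the Tate groups for `p m'` and `m'` agree. Proof.
`op h (p m') s = p • op h m' s` for odd `s` (regroup the sum), which has the same kernel
(torsion-free), and `op h _ (s + 1) = h - 1` for both. (So the two types are quotients of equal
submodules by equal submodules.) -/
def P_ODD : Prop :=
  ∀ (M : Type) [AddCommGroup M] (h : M →ₗ[ℤ] M) (m' p : ℕ), p.Prime →
    (∀ (x : M) (z : ℤ), z ≠ 0 → z • x = 0 → x = 0) → (∀ x, (h ^ m') x = x) →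
    ∀ s : ℕ, ¬ Even s → Nonempty (Tate M h (p * m') s ≃ₗ[ℤ] Tate M h m' s)

/-- PIECE EVEN. `M` finitely generated and torsion-free, `h ^ m' = 1`, `m' > 0`, `s` even, `r` the rank of
the invariants: `|T / p^(k+1)| = p^r |T' / p^k|` for the Tate groups `T`, `T'` for `p m'` and `m'`; and
`|T' / p| ≤ p ^ r`.

Proof. Let `Λ = ker (h - 1)`, free of rank `r`, `N' = range (op h m' (s+1)) ⊆ Λ`, and
`range (op h (p m') (s+1)) = p N'`. Then `T / p^(k+1) = Λ / (p N' + p^(k+1) Λ)`, and its order is
`|Λ / p Λ| · |p Λ / p (N' + p^k Λ)| = p^r · |Λ / (N' + p^k Λ)|`, because multiplication by `p` is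
injective on `Λ`. And `T' / p` is a quotient of `Λ / p Λ`. (Hint: work with
`Submodule`/`AddSubgroup` indices: `relIndex_mul_relIndex`, `index_map`, ...) -/
def P_EVEN : Prop :=
  ∀ (M : Type) [AddCommGroup M] [Module.Finite ℤ M] (h : M →ₗ[ℤ] M) (m' p : ℕ), p.Prime → 0 < m' →
    (∀ (x : M) (z : ℤ), z ≠ 0 → z • x = 0 → x = 0) → (∀ x, (h ^ m') x = x) →
    ∀ s : ℕ, Even s →
      (∀ k : ℕ, cc p (k + 1) (Tate M h (p * m') s) =
        p ^ finrank ℤ (LinearMap.ker (h - 1)) * cc p k (Tate M h m' s)) ∧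
      cc p 1 (Tate M h m' s) ≤ p ^ finrank ℤ (LinearMap.ker (h - 1))

/-- `tot R T r k = ∑ j < R, min k #{t ∈ T | j < r t}`. -/
def tot (R : ℕ) (T : Finset ℕ) (r : ℕ → ℕ) (k : ℕ) : ℕ :=
  ∑ j ∈ Finset.range R, min k (T.filter fun t => j < r t).card

/-- PIECE TOT. Combinatorics of `tot`. Proof. (1) Let `b j = #{t ∈ T | j < r t}`, decreasing in `j`.
`tot R T r 1 = #{j < R | b j > 0}` is the maximum of the `r t`, `t ∈ T` (all `≤ R`), so by assumption
`r t ≤ r t₀` for all `t ∈ T`, and `b j = 0` for `j ≥ r t₀`. Adding `t₀` changes `b j` into `b j + 1`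
for `j < r t₀` and not for `j ≥ r t₀`; `min (k+1) (b j + 1) = min k (b j) + 1`. (2) is clear. (3) The
terms with `j ≥ R` vanish. -/
def P_TOT : Prop :=
  (∀ (R : ℕ) (T : Finset ℕ) (r : ℕ → ℕ) (t₀ : ℕ), t₀ ∉ T → r t₀ ≤ R → (∀ t ∈ T, r t ≤ R) →
    tot R T r 1 ≤ r t₀ → ∀ k, tot R (insert t₀ T) r (k + 1) = r t₀ + tot R T r k) ∧
  (∀ (R : ℕ) (T : Finset ℕ) (r : ℕ → ℕ), tot R T r 0 = 0) ∧
  (∀ (R R' : ℕ) (T : Finset ℕ) (r : ℕ → ℕ), R ≤ R' → (∀ t ∈ T, r t ≤ R) →
    ∀ k, tot R' T r k = tot R T r k)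

/-- PIECE TORS. `M` finitely generated and torsion-free, `h ^ m = 1`, `m > 0`: the torsion subgroup of
`M / (h - 1) M` is the odd Tate group, and it is finite. Proof. `x ↦ [x]` maps `ker N` onto the torsion
of `M / (h-1) M`: if `N x = 0` then `m x = ∑ (1 - h^j) x ∈ (h-1) M`; if `z x ∈ (h-1) M`, `z ≠ 0`, then
`z N x = 0`, so `N x = 0`. The kernel is `(h-1) M`. Finite: finitely generated and killed by `m`. -/
def P_TORS : Prop :=
  ∀ (M : Type) [AddCommGroup M] [Module.Finite ℤ M] (h : M →ₗ[ℤ] M) (m : ℕ), 0 < m →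
    (∀ (x : M) (z : ℤ), z ≠ 0 → z • x = 0 → x = 0) → (∀ x, (h ^ m) x = x) →
    Nonempty (AddCommGroup.torsion (M ⧸ LinearMap.range (h - 1)) ≃+ Tate M h m 1) ∧
      Finite (Tate M h m 1)

/-- PIECE CLASS. A finite abelian group `T` with `|T / p^k T| = ∏ j, p ^ min k (v_p (δ j))` for all primes
`p` and all `k` is isomorphic to the product of the `ℤ / δ j`. Proof. By the structure theorem
(`AddCommGroup.equiv_directSum_zmod_of_finite`) `T` is a finite direct sum of `ZMod (q i ^ e i)`, `q i`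
prime; also `ZMod (δ j)` is, by the Chinese remainder theorem (or apply the structure theorem to the
finite group `∏ j, ZMod (δ j)`, for which `|T' / p^k T'| = ∏ j, gcd(p^k, δ j)`). For a direct sum of
`ZMod (q i ^ e i)`: `|T / p^k T| = p ^ ∑_{q i = p} min k (e i)`, so these numbers determine, for all `p` and
`k ≥ 1`, the number of `i` with `q i = p` and `e i ≥ k` (second differences), hence the number of `i`
with `q i = p`, `e i = k`, `k ≥ 1`. So there is a bijection between the index sets (after removing the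
trivial summands) preserving `(q i, e i)`. -/
def P_CLASS : Prop :=
  ∀ (T : Type) [AddCommGroup T] [Finite T] (r : ℕ) (δ : Fin r → ℕ), (∀ j, 0 < δ j) →
    (∀ p k : ℕ, p.Prime → cc p k T = p ^ ∑ j, min k ((δ j).factorization p)) →
    Nonempty (T ≃+ ((j : Fin r) → ZMod (δ j)))

/-- PIECE ORL (number theory of Orlik's recipe). `u i = d / gcd (d, w i)`, `∏_{J ⊆ I} c J = gcd_{i ∉ I} u i`,
`k I = (1 or 0) * ...` with `k univ = 0`. For all `j`: `δ = ∏_{I : j + 1 ≤ k I} c I` is positive, and
its exponent at the prime `p` is the number of `t` with `1 ≤ t ≤ v_p(d)` and `j + 1 ≤ k (S_t)`,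
`S_t = {i | p^t ∣ w i}`.

Proof. `univ` does not occur (`k univ = 0`), and `c I > 0` for `I ≠ univ`, since
`∏_{J ⊆ I} c J = gcd_{i ∉ I} u i > 0`. Let `e = v_p(d)`, `a i = v_p(u i) = e - min e (v_p (w i))`. For
`I ≠ univ`: `∑_{J ⊆ I} v_p(c J) = min_{i ∉ I} a i = #{t ∈ [1, e] | {i | p^t ∣ w i} ⊆ I}`, because
`p^t ∣ w i` (with `t ≤ e`) iff `a i ≤ e - t`, so the condition is `a i > e - t` for all `i ∉ I`, and
the number of `t ∈ [1, e]` with `e - t < min` is `min` (as `min ≤ e`). By
induction on `I` (Möbius inversion, strong induction on the subsets), for `I ≠ univ`: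
`v_p(c I) = #{t ∈ [1, e] | S_t = I}`. Now sum over the `I` with `j + 1 ≤ k I`. -/
def P_ORL : Prop :=
  ∀ (n : ℕ) (w : Fin (n + 1) → ℕ) (d : ℕ), (∀ i, 0 < w i) → 0 < d →
    ∀ (u : Fin (n + 1) → ℕ), (∀ i, u i = d / Nat.gcd d (w i)) →
    ∀ c : Finset (Fin (n + 1)) → ℕ,
    (∀ I : Finset (Fin (n + 1)), ∏ J ∈ I.powerset, c J = (Finset.univ \ I).gcd u) →
    ∀ k : Finset (Fin (n + 1)) → ℚ, k Finset.univ ≤ 0 →
    ∀ j : ℕ,
      0 < (∏ I ∈ Finset.univ.filter (fun I => ((j + 1 : ℕ) : ℚ) ≤ k I), c I) ∧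
      ∀ p : ℕ, p.Prime →
        (∏ I ∈ Finset.univ.filter (fun I => ((j + 1 : ℕ) : ℚ) ≤ k I), c I).factorization p =
          ((Finset.Icc 1 (d.factorization p)).filter fun t =>
            ((j + 1 : ℕ) : ℚ) ≤ k (idx w p t)).card

end Pool.Agent.W2helper44.OT
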